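import Pool.Agent.U280.SM.B


set_option autoImplicit false

open MeasureTheory Set Filter Topology Real
open scoped ENNReal

namespace Pool.Agent.U615.RR

open LTd Pool.H632.LTD Pool.Agent.U280.SM

variable {d : ℕ}

/-- The bound for all `γ ≥ 1`. -/
theorem moment (hd : 1 ≤ d) (P : ((Fin d → ℝ) → ℂ) → Prop) {γ : ℝ} (hγ : 1 ≤ γ)
    (V : (Fin d → ℝ) → ℝ)
    (hV : MemLp V (ENNReal.ofReal (γ + (d:ℝ) / 2))) (N : ℕ)
    (hb1 : Adm d V → ∑ n ∈ Finset.range N, max (-mmP P V n) 0 ≤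
      LK (LTd.Kcl d) d * ∫ x, (max (-V x) 0) ^ (1 + (d:ℝ) / 2))
    (hb : ∀ τ : ℝ, 0 < τ → Adm d (sh V τ) → ∑ n ∈ Finset.range N, max (-mmP P (sh V τ) n) 0 ≤
      LK (LTd.Kcl d) d * ∫ x, (max (-sh V τ x) 0) ^ (1 + (d:ℝ) / 2)) :
    ∑ n ∈ Finset.range N, (max (-mmP P V n) 0) ^ γ ≤
      Lcl γ d * ∫ x, (max (-V x) 0) ^ (γ + (d:ℝ) / 2) := by
  have hone : (1:ℝ) ^ (1 / (d:ℝ)) * LTd.Kcl d = LTd.Kcl d := by rw [Real.one_rpow, one_mul]
  set K : ℝ := LTd.Kcl d with hKdef
  have hKc := Kcl_pos d hd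
  have hK : 0 < K := hKc
  have hLeq : LK K d = 1 * Lcl 1 d := by
    have h := LK_eq (C := 1) one_pos d hd
    rw [hone, Real.one_rpow] at h
    exact h
  rcases hγ.eq_or_lt with rfl | hγ1
  · simp only [Real.rpow_one]
    have h := hb1 (adm_one hd hV)
    rw [hLeq, one_mul] at h
    exact h
  · set E : ℕ → ℝ := fun n => max (-mmP P V n) 0 with hE
    have hE0 : ∀ n, 0 ≤ E n := fun n => le_max_right _ _
    have hL := LK_pos hK d hd
    have hx : 0 < γ - 1 := by linarith
    have hy : (1:ℝ) < 2 + (d:ℝ) / 2 := by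
      have : (0:ℝ) ≤ d := Nat.cast_nonneg d
      linarith
    set q : ℝ := 1 + (d:ℝ) / 2 with hq
    have hq0 : 0 < q := by positivity
    -- pointwise in τ
    have h1 : ∀ τ ∈ Ioi (0:ℝ), ENNReal.ofReal (τ ^ (γ - 1 - 1) * ∑ n ∈ Finset.range N,
        max (E n - τ) 0) ≤ ENNReal.ofReal (LK K d) * ∫⁻ x,
          ENNReal.ofReal (τ ^ (γ - 1 - 1) * max (max (-V x) 0 - τ) 0 ^ q) := by
      intro τ hτ
      have hτ0 : 0 < τ := hτ
      have hadm := sh_adm hd hγ hV hτ0
      have h2 := hb τ hτ0 hadm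
      have h3 : ∑ n ∈ Finset.range N, max (E n - τ) 0 ≤
          ∑ n ∈ Finset.range N, max (-mmP P (sh V τ) n) 0 :=
        Finset.sum_le_sum fun n _ => mmP_shift hd P hγ hV hτ0 n
      have hneg := hadm.neg
      simp only [sh_neg] at h2 hneg
      have h4 : ∀ x, max (-V x - τ) 0 = max (max (-V x) 0 - τ) 0 := by
        intro x
        rcases le_total (-V x) 0 with h | h
        · rw [max_eq_right h, max_eq_right (by linarith), max_eq_right (by linarith)]
        · rw [max_eq_left h]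
      simp only [h4] at h2 hneg
      have hτp : 0 ≤ τ ^ (γ - 1 - 1) := by positivity
      have h5 : τ ^ (γ - 1 - 1) * ∑ n ∈ Finset.range N, max (E n - τ) 0 ≤
          LK K d * ∫ x, τ ^ (γ - 1 - 1) * max (max (-V x) 0 - τ) 0 ^ q := by
        rw [integral_const_mul]
        calc _ ≤ τ ^ (γ - 1 - 1) * (LK K d * ∫ x, max (max (-V x) 0 - τ) 0 ^ q) :=
              mul_le_mul_of_nonneg_left (h3.trans h2) hτp
          _ = _ := by ring
      refine (ENNReal.ofReal_le_ofReal h5).trans ?_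
      rw [ENNReal.ofReal_mul hL.le, ofReal_integral_eq_lintegral_ofReal (hneg.const_mul _)
        (Eventually.of_forall fun x => by positivity)]
    have h2 : ∫⁻ τ in Ioi (0:ℝ), ENNReal.ofReal (τ ^ (γ - 1 - 1) * ∑ n ∈ Finset.range N,
        max (E n - τ) 0) ≤ ∫⁻ τ in Ioi (0:ℝ), ENNReal.ofReal (LK K d) * ∫⁻ x,
          ENNReal.ofReal (τ ^ (γ - 1 - 1) * max (max (-V x) 0 - τ) 0 ^ q) :=
      setLIntegral_mono_ae' measurableSet_Ioi (Eventually.of_forall h1)
    -- left side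
    have hleft : ∫⁻ τ in Ioi (0:ℝ), ENNReal.ofReal (τ ^ (γ - 1 - 1) * ∑ n ∈ Finset.range N,
        max (E n - τ) 0) = ENNReal.ofReal (∑ n ∈ Finset.range N,
          Gamma (γ - 1) * Gamma 2 / Gamma (γ - 1 + 2) * E n ^ γ) := by
      have e1 : ∀ n, IntegrableOn (fun τ : ℝ => τ ^ (γ - 1 - 1) * max (E n - τ) 0) (Ioi 0) ∧
          ∫ τ in Ioi (0:ℝ), τ ^ (γ - 1 - 1) * max (E n - τ) 0 =
            Gamma (γ - 1) * Gamma 2 / Gamma (γ - 1 + 2) * E n ^ γ := by
        intro n
        have := Pool.H632.LTD.beta_int hx (by norm_num : (1:ℝ) < 2) (hE0 n)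
        have e2 : (2:ℝ) - 1 = 1 := by norm_num
        have e3 : γ - 1 + 2 - 1 = γ := by ring
        rw [e2, e3] at this
        simpa only [Real.rpow_one] using this
      have e4 : ∫ τ in Ioi (0:ℝ), τ ^ (γ - 1 - 1) * ∑ n ∈ Finset.range N, max (E n - τ) 0 =
          ∑ n ∈ Finset.range N, Gamma (γ - 1) * Gamma 2 / Gamma (γ - 1 + 2) * E n ^ γ := by
        simp only [Finset.mul_sum]
        rw [integral_finsetSum _ fun n _ => (e1 n).1]
        exact Finset.sum_congr rfl fun n _ => (e1 n).2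
      have e5 : IntegrableOn (fun τ : ℝ => τ ^ (γ - 1 - 1) *
          ∑ n ∈ Finset.range N, max (E n - τ) 0) (Ioi 0) := by
        simp only [Finset.mul_sum]
        exact integrable_finsetSum _ fun n _ => (e1 n).1
      rw [← e4, ofReal_integral_eq_lintegral_ofReal e5]
      filter_upwards [ae_restrict_mem measurableSet_Ioi] with τ hτ
      have : 0 < τ := hτ
      exact mul_nonneg (by positivity) (Finset.sum_nonneg fun n _ => le_max_right _ _)
    -- right side
    have hVm : AEMeasurable V volume := hV.1.aemeasurable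
    have hP : Integrable (fun x => max (-V x) 0 ^ (γ + (d:ℝ) / 2)) volume := by
      have h3 := int_pow hγ hV
      have hm : AEStronglyMeasurable (fun x => max (-V x) 0 ^ (γ + (d:ℝ) / 2)) volume :=
        ((hVm.neg.max aemeasurable_const).pow_const _).aestronglyMeasurable
      refine h3.mono' hm (Eventually.of_forall fun x => ?_)
      have h0 : 0 ≤ max (-V x) 0 := le_max_right _ _
      rw [Real.norm_of_nonneg (Real.rpow_nonneg h0 _)]
      exact Real.rpow_le_rpow h0 (max_le (neg_le_abs _) (abs_nonneg _)) (by positivity)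
    set B : ℝ := Gamma (γ - 1) * Gamma (2 + (d:ℝ) / 2) / Gamma (γ - 1 + (2 + (d:ℝ) / 2)) with hB
    have hB0 : 0 < B := by
      have g1 : 0 < Gamma (γ - 1) := Gamma_pos_of_pos hx
      have g2 : 0 < Gamma (2 + (d:ℝ) / 2) := Gamma_pos_of_pos (by positivity)
      have g3 : 0 < Gamma (γ - 1 + (2 + (d:ℝ) / 2)) := Gamma_pos_of_pos (by positivity)
      positivity
    have hright : ∫⁻ τ in Ioi (0:ℝ), ENNReal.ofReal (LK K d) * ∫⁻ x,
          ENNReal.ofReal (τ ^ (γ - 1 - 1) * max (max (-V x) 0 - τ) 0 ^ q) =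
        ENNReal.ofReal (LK K d * (B * ∫ x, max (-V x) 0 ^ (γ + (d:ℝ) / 2))) := by
      have hjm : AEMeasurable (fun z : ℝ × (Fin d → ℝ) =>
          ENNReal.ofReal (z.1 ^ (γ - 1 - 1) * max (max (-V z.2) 0 - z.1) 0 ^ q))
          ((volume.restrict (Ioi (0:ℝ))).prod volume) := by
        have m1 : AEMeasurable (fun z : ℝ × (Fin d → ℝ) => V z.2)
            ((volume.restrict (Ioi (0:ℝ))).prod volume) := hV.1.comp_snd.aemeasurable
        have m2 : AEMeasurable (fun z : ℝ × (Fin d → ℝ) => z.1)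
            ((volume.restrict (Ioi (0:ℝ))).prod volume) := measurable_fst.aemeasurable
        exact ((m2.pow_const _).mul ((((m1.neg.max aemeasurable_const).sub m2).max
          aemeasurable_const).pow_const _)).ennreal_ofReal
      rw [lintegral_const_mul' _ _ ENNReal.ofReal_ne_top,
        lintegral_lintegral_swap hjm]
      have e1 : ∀ x, ∫⁻ τ in Ioi (0:ℝ),
          ENNReal.ofReal (τ ^ (γ - 1 - 1) * max (max (-V x) 0 - τ) 0 ^ q) =
          ENNReal.ofReal (B * max (-V x) 0 ^ (γ + (d:ℝ) / 2)) := by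
        intro x
        have := beta_lint hx hy (le_max_right (-V x) 0)
        have e2 : 2 + (d:ℝ) / 2 - 1 = q := by rw [hq]; ring
        have e3 : γ - 1 + (2 + (d:ℝ) / 2) - 1 = γ + (d:ℝ) / 2 := by ring
        rw [e2, e3] at this
        exact this
      simp only [e1]
      rw [← ofReal_integral_eq_lintegral_ofReal (hP.const_mul B)
        (Eventually.of_forall fun x => by positivity), integral_const_mul,
        ← ENNReal.ofReal_mul hL.le]
    rw [hleft, hright] at h2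
    have hI0 : 0 ≤ ∫ x, max (-V x) 0 ^ (γ + (d:ℝ) / 2) := integral_nonneg fun x => by positivity
    have h3 := (ENNReal.ofReal_le_ofReal_iff (by positivity)).1 h2
    rw [← Finset.mul_sum, hLeq] at h3
    have g1 : 0 < Gamma (γ - 1) := Gamma_pos_of_pos hx
    have g2 : Gamma (γ - 1 + 2) = Gamma (γ + 1) := by congr 1; ring
    have g3 : 0 < Gamma (γ + 1) := Gamma_pos_of_pos (by positivity)
    have g4 : Gamma ((1:ℝ) + 1 + d / 2) = Gamma (2 + (d:ℝ) / 2) := by congr 1; ring
    have g5 : 0 < Gamma (2 + (d:ℝ) / 2) := Gamma_pos_of_pos (by positivity)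
    have g6 : Gamma (γ - 1 + (2 + (d:ℝ) / 2)) = Gamma (γ + 1 + d / 2) := by congr 1; ring
    have g7 : 0 < Gamma (γ + 1 + (d:ℝ) / 2) := Gamma_pos_of_pos (by positivity)
    have g8 : Gamma ((1:ℝ) + 1) = 1 := by
      rw [show (1:ℝ) + 1 = 2 by norm_num]
      exact Real.Gamma_two
    rw [g2, Real.Gamma_two] at h3
    have h4 : ∑ n ∈ Finset.range N, E n ^ γ ≤ Gamma (γ + 1) / Gamma (γ - 1) *
        (1 * Lcl 1 d * (B * ∫ x, max (-V x) 0 ^ (γ + (d:ℝ) / 2))) := by
      have h5 := mul_le_mul_of_nonneg_left h3 (by positivity : 0 ≤ Gamma (γ + 1) / Gamma (γ - 1))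
      refine le_trans (le_of_eq ?_) h5
      field_simp
    refine h4.trans (le_of_eq ?_)
    rw [hB, g6]
    unfold Lcl
    rw [g8, g4]
    have h40 : 0 < (4 * π) ^ ((d:ℝ) / 2) := by positivity
    field_simp


end Pool.Agent.U615.RR
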