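import Pool.Agent.U615.RR.A
import Pool.Agent.U281.CP.Top

set_option autoImplicit false

open MeasureTheory Set Filter Topology Real
open scoped ENNReal

namespace Pool.Agent.U615.RR

open LTd Pool.H632.LTD Pool.Agent.U280.SM

theorem Ly_eq {d : ℕ} (hd : 0 < d) :
    Pool.Agent.U281.CP.Ly (Pool.Agent.R117.RL.Kcl d) d = LK (LTd.Kcl d) d := by
  have hd' : (0 : ℝ) < d := by exact_mod_cast hd
  have e : Pool.Agent.R117.RL.Kcl d = LTd.Kcl d := by
    unfold Pool.Agent.R117.RL.Kcl LTd.Kcl Pool.Agent.R117.RL.om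
    rfl
  rw [e]
  have hK := Kcl_pos d hd
  unfold Pool.Agent.U281.CP.Ly LK
  congr 1
  rw [Real.rpow_neg (by positivity), ← Real.inv_rpow (by positivity)]
  congr 1
  field_simp

/-- the energy bound for potentials `V(|x|, y)` -/
theorem family_rad {k m N : ℕ} (hk : 6 ≤ k) (u : Fin N → (Fin (k + m) → ℝ) → ℂ)
    (g : Fin N → Fin (k + m) → (Fin (k + m) → ℝ) → ℂ) (hs : ∀ n, WGradC (u n) (g n))
    (ho : ∀ n n', ∫ x, (starRingEnd ℂ) (u n x) * u n' x = if n = n' then 1 else 0)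
    (V : (Fin (k + m) → ℝ) → ℝ) (hV : Adm (k + m) V) (v : ℝ × (Fin m → ℝ) → ℝ)
    (hv : Measurable v)
    (hVv : ∀ z, V z = v (Pool.Agent.U281.CP.ry (Pool.Agent.U281.CP.Sc k m z))) :
    -(∑ n, ((∫ x, ∑ j, ‖g n j x‖ ^ 2) + ∫ x, V x * ‖u n x‖ ^ 2)) ≤
      LK (LTd.Kcl (k + m)) (k + m) * ∫ x, (max (-V x) 0) ^ (1 + ((k + m : ℕ) : ℝ) / 2) := by
  have h0 : ∀ z, max (-v (Pool.Agent.U281.CP.ry (Pool.Agent.U281.CP.Sc k m z))) 0 =
      max (-V z) 0 := fun z => by rw [hVv z]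
  obtain ⟨h1, h2⟩ := Pool.Agent.U281.CP.top_pot (m := m) hk u g hs ho
    (V := fun p => max (-v p) 0) (hv.neg.max measurable_const) (fun p => le_max_right _ _)
    (by
      simp only [h0]
      exact hV.neg)
  simp only [h0] at h1 h2
  rw [Ly_eq (by omega)] at h2
  have hVn : ∀ n, Integrable (fun x => V x * ‖u n x‖ ^ 2) volume :=
    fun n => hV.int _ _ (hs n)
  have hVρ : Integrable (fun x => V x * ∑ n, ‖u n x‖ ^ 2) volume := by
    have := integrable_finsetSum Finset.univ fun n _ => hVn n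
    refine this.congr (Eventually.of_forall fun x => ?_)
    simp only [Finset.mul_sum]
  have hsum : ∑ n, ∫ x, V x * ‖u n x‖ ^ 2 = ∫ x, V x * ∑ n, ‖u n x‖ ^ 2 := by
    rw [← integral_finsetSum _ fun n _ => hVn n]
    congr 1
    funext x
    rw [Finset.mul_sum]
  have hkin : ∀ n, ∫ x, ∑ j, ‖g n j x‖ ^ 2 = ∑ j, ∫ x, ‖g n j x‖ ^ 2 := by
    intro n
    rw [integral_finsetSum _ fun j _ => int_sq ((hs n).g2 j)]
  rw [Finset.sum_add_distrib, hsum]
  simp only [hkin]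
  have h3 : ∫ x, -(V x * ∑ n, ‖u n x‖ ^ 2) ≤ ∫ x, max (-V x) 0 * ∑ n, ‖u n x‖ ^ 2 := by
    refine integral_mono hVρ.neg h1 fun x => ?_
    have hρ : 0 ≤ ∑ n, ‖u n x‖ ^ 2 := Finset.sum_nonneg fun n _ => sq_nonneg _
    simp only
    rw [← neg_mul]
    exact mul_le_mul_of_nonneg_right (le_max_left _ _) hρ
  rw [integral_neg] at h3
  linarith

end Pool.Agent.U615.RR
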