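import Pool.Agent.U615.RR.B

set_option autoImplicit false

open MeasureTheory Set Filter Topology Real
open scoped ENNReal

namespace Pool.Agent.U615.RR

open LTd Pool.H632.LTD Pool.Agent.U280.SM

/-- The sum of the absolute values of the negative min-max values. -/
theorem bound_of_family {L : ℝ} (d : ℕ) (P : ((Fin d → ℝ) → ℂ) → Prop)
    (V : (Fin d → ℝ) → ℝ)
    (hfamily : ∀ (N : ℕ) (u : Fin N → (Fin d → ℝ) → ℂ) (g : Fin N → Fin d → (Fin d → ℝ) → ℂ),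
      (∀ n, WGradC (u n) (g n)) →
      (∀ n m, ∫ x, (starRingEnd ℂ) (u n x) * u m x = if n = m then 1 else 0) →
      -(∑ n, ((∫ x, ∑ k, ‖g n k x‖ ^ 2) + ∫ x, V x * ‖u n x‖ ^ 2)) ≤ L) (N : ℕ) :
    ∑ n ∈ Finset.range N, max (-mmP P V n) 0 ≤ L := by
  classical
  set J : Finset ℕ := (Finset.range N).filter fun n => mmP P V n < 0 with hJ
  refine le_of_forall_pos_le_add fun ε hε => ?_
  set δ : ℝ := ε / (N + 1) with hδ
  have hδ0 : 0 < δ := by positivity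
  have hex : ∀ n ∈ J, ∃ lam, lam < mmP P V n + δ ∧
      ∃ W : Submodule ℂ (Lp ℂ 2 (volume : Measure (Fin d → ℝ))),
      Module.finrank ℂ W = n + 1 ∧ ∀ u ∈ W, P u ∧ ∃ g : Fin d → (Fin d → ℝ) → ℂ, WGradC u g ∧
      (∫ x, ∑ k, ‖g k x‖ ^ 2) + ∫ x, V x * ‖u x‖ ^ 2 ≤ lam * ∫ x, ‖u x‖ ^ 2 := by
    intro n hn
    have hneg : mmP P V n < 0 := (Finset.mem_filter.1 hn).2
    have hne : {lam : ℝ | ∃ W : Submodule ℂ (Lp ℂ 2 (volume : Measure (Fin d → ℝ))),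
        Module.finrank ℂ W = n + 1 ∧ ∀ u ∈ W, P u ∧
        ∃ g : Fin d → (Fin d → ℝ) → ℂ, WGradC u g ∧
        (∫ x, ∑ k, ‖g k x‖ ^ 2) + ∫ x, V x * ‖u x‖ ^ 2 ≤ lam * ∫ x, ‖u x‖ ^ 2}.Nonempty := by
      by_contra hemp
      rw [not_nonempty_iff_eq_empty] at hemp
      rw [mmP, hemp, Real.sInf_empty] at hneg
      exact lt_irrefl _ hneg
    obtain ⟨lam, hlam, hlt⟩ := exists_lt_of_csInf_lt hne
      (show sInf _ < mmP P V n + δ by rw [← mmP]; linarith)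
    exact ⟨lam, hlt, hlam⟩
  choose! lam hlam W hWf hW using hex
  obtain ⟨u, huW, huo⟩ := exists_orthonormal J W hWf N
  have hlt : ∀ n ∈ J, n < N := fun n hn => Finset.mem_range.1 (Finset.mem_filter.1 hn).1
  have hP : ∀ n ∈ J, P (u n) := fun n hn => (hW n hn _ (huW n hn (hlt n hn))).1
  have hg : ∀ n ∈ J, ∃ g : Fin d → (Fin d → ℝ) → ℂ, WGradC (u n) g ∧
      (∫ x, ∑ k, ‖g k x‖ ^ 2) + ∫ x, V x * ‖u n x‖ ^ 2 ≤ lam n * ∫ x, ‖u n x‖ ^ 2 :=
    fun n hn => (hW n hn _ (huW n hn (hlt n hn))).2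
  choose! g hgS hgQ using hg
  have hunit : ∀ n ∈ J, ∫ x, ‖u n x‖ ^ 2 = 1 := by
    intro n hn
    have h1 := huo n hn n hn (hlt n hn) (hlt n hn)
    rw [if_pos rfl] at h1
    exact lp_unit h1
  set e := J.equivFin with he
  have horth : ∀ i j : Fin J.card, ∫ x, (starRingEnd ℂ) (u (e.symm i) x) * u (e.symm j) x =
      if i = j then 1 else 0 := by
    intro i j
    rw [← lp_inner, huo _ (e.symm i).2 _ (e.symm j).2 (hlt _ (e.symm i).2)
      (hlt _ (e.symm j).2)]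
    simp only [Subtype.val_inj, EmbeddingLike.apply_eq_iff_eq]
  have hfam := hfamily J.card (fun i : Fin J.card => (u (e.symm i) : (Fin d → ℝ) → ℂ))
    (fun i => g (e.symm i)) (fun i => hgS _ (e.symm i).2) horth
  have hsumJ : ∑ i : Fin J.card, ((∫ x, ∑ k, ‖g (e.symm i) k x‖ ^ 2) +
      ∫ x, V x * ‖u (e.symm i) x‖ ^ 2) =
      ∑ n ∈ J, ((∫ x, ∑ k, ‖g n k x‖ ^ 2) + ∫ x, V x * ‖u n x‖ ^ 2) := by
    rw [← Finset.sum_coe_sort J]
    exact Equiv.sum_comp e.symm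
      (fun n : J => (∫ x, ∑ k, ‖g n k x‖ ^ 2) + ∫ x, V x * ‖u n x‖ ^ 2)
  rw [hsumJ] at hfam
  have h1 : ∑ n ∈ Finset.range N, max (-mmP P V n) 0 = ∑ n ∈ J, -mmP P V n := by
    rw [hJ, Finset.sum_filter]
    refine Finset.sum_congr rfl fun n _ => ?_
    by_cases hn : mmP P V n < 0
    · rw [if_pos hn, max_eq_left (by linarith)]
    · rw [if_neg hn, max_eq_right (by linarith)]
  rw [h1]
  have h2 : ∑ n ∈ J, ((∫ x, ∑ k, ‖g n k x‖ ^ 2) + ∫ x, V x * ‖u n x‖ ^ 2) ≤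
      ∑ n ∈ J, (mmP P V n + δ) := by
    refine Finset.sum_le_sum fun n hn => ?_
    have h3 := hgQ n hn
    rw [hunit n hn, mul_one] at h3
    exact h3.trans (hlam n hn).le
  have hcard : (J.card : ℝ) ≤ N := by
    have : J.card ≤ (Finset.range N).card := Finset.card_filter_le _ _
    rw [Finset.card_range] at this
    exact_mod_cast this
  have h2' : ∑ n ∈ J, (mmP P V n + δ) = (∑ n ∈ J, mmP P V n) + (J.card : ℝ) * δ := by
    rw [Finset.sum_add_distrib, Finset.sum_const, nsmul_eq_mul]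
  rw [h2'] at h2
  rw [Finset.sum_neg_distrib]
  have h4 : (J.card : ℝ) * δ ≤ ε := by
    calc (J.card : ℝ) * δ ≤ N * δ := mul_le_mul_of_nonneg_right hcard hδ0.le
      _ ≤ (N + 1) * δ := mul_le_mul_of_nonneg_right (by linarith) hδ0.le
      _ = ε := by rw [hδ]; field_simp
  linarith


/-- The bound for the moments of order `s ≥ 1`, potentials `V(|x|, y)`. -/
theorem moment_rad {k m : ℕ} (hk : 6 ≤ k) (P : ((Fin (k + m) → ℝ) → ℂ) → Prop) {s : ℝ}
    (hs : 1 ≤ s) (v : ℝ × (Fin m → ℝ) → ℝ) (hv : Measurable v) (V : (Fin (k + m) → ℝ) → ℝ)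
    (hVv : ∀ z, V z = v (Pool.Agent.U281.CP.ry (Pool.Agent.U281.CP.Sc k m z)))
    (hV : MemLp V (ENNReal.ofReal (s + ((k + m : ℕ) : ℝ) / 2))) (N : ℕ) :
    ∑ n ∈ Finset.range N, (max (-mmP P V n) 0) ^ s ≤
      Lcl s (k + m) * ∫ x, (max (-V x) 0) ^ (s + ((k + m : ℕ) : ℝ) / 2) := by
  refine moment (by omega) P hs V hV N ?_ ?_
  · intro hadm
    exact bound_of_family (k + m) P V
      (fun N' u g hu ho => family_rad hk u g hu ho V hadm v hv hVv) N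
  · intro τ hτ hadm
    refine bound_of_family (k + m) P (sh V τ)
      (fun N' u g hu ho => family_rad hk u g hu ho (sh V τ) hadm
        (fun p => -max (-v p - τ) 0) ?_ ?_) N
    · exact ((hv.neg.sub_const τ).max measurable_const).neg
    · intro z
      unfold sh
      rw [hVv z]

end Pool.Agent.U615.RR
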